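import Pool.Agent.Work.MP_b0f829_al.H86.Crit

set_option autoImplicit false

namespace Pool.Agent.Results.MP_b0f829_al.CommutatorWidth

open Subgroup Pool.Agent.B0f829
open scoped commutatorElement

/-- `PalLen S k g`: the element `g` is a product of at most `k` palindromic words in the letters
`S` and their inverses. -/
def PalLen {G : Type} [Group G] (S : Set G) (k : ℕ) (g : G) : Prop :=
  ∃ ps : List (List G), ps.length ≤ k ∧
    (∀ w ∈ ps, (∀ x ∈ w, x ∈ S ∨ x⁻¹ ∈ S) ∧ w.reverse = w) ∧ (ps.map List.prod).prod = g

/-- The subgroup `A²[A, G]` generated by the squares of elements of `A` and by `[A, G]`. -/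
def SqComm {G : Type} [Group G] (A : Subgroup G) : Subgroup G :=
  closure {y | ∃ a ∈ A, y = a ^ 2} ⊔ ⁅A, (⊤ : Subgroup G)⁆

/-- Let `G` be solvable and suppose that for every `i ≥ 3` there is `k` such that every element of
the derived subgroup `A = G^(i)` is a product of at most `k` commutators modulo `A²[A, G]` (for
example, `G` has finite commutator width). Then the palindromic width of `G` is finite for every
finite generating set. -/
theorem result (G : Type) [Group G] (hsol : Group.IsSolvable G)
    (hcomm : ∀ i : ℕ, 3 ≤ i → ∃ k : ℕ, ∀ a ∈ derivedSeries G i,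
      ∃ l : List (G × G), l.length ≤ k ∧
        ((l.map (fun q => ⁅q.1, q.2⁆)).prod)⁻¹ * a ∈ SqComm (derivedSeries G i))
    (S : Finset G) (hS : closure (S : Set G) = ⊤) :
    ∃ N : ℕ, ∀ g : G, PalLen (S : Set G) N g :=
  finite_of_layerCond hsol S hS hcomm

end Pool.Agent.Results.MP_b0f829_al.CommutatorWidth
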