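import Pool.Agent.Work.MP_b0f829_al.EQ.QtoC
import Pool.Agent.Work.MP_b0f829_al.EQ.Transfer
import Pool.Agent.Work.MP_b0f829_al.EQ.Free
import Pool.Agent.Work.MP_b0f829_al.EQ.Sym
import Pool.Agent.Work.MP_b0f829_al.EQ.Central

/-!
# MP_b0f829_al: palindromic width and commutator width of finitely generated solvable groups

(1) Q1 is equivalent to: every finitely generated solvable group has finite commutator width; to: in
every solvable group generated by a finite set of involutions every element is a product of a bounded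
number of conjugates of these involutions; to: for every free group `F` of finite rank and every
`i ≥ 3` the elements of `A = F^(i)` are products of a bounded number of commutators modulo `A²[A, F]`;
to: the elements of `A` have bounded palindromic length modulo `A²[A, F]`, for those `F` and `A` for
which the palindromic length is bounded modulo `A` and the commutator length is unbounded on `A`
modulo `A²[A, F]`; and to: the palindromic width of a solvable group with respect to a finite
generating set which is inverted by an automorphism is finite.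
(2) The version for a bounded derived length.
(3) For every group `G` with a finite generating set there is a group `Γ` generated by a finite set
`T` of involutions, of derived length at most one more, such that the commutator width of `G` is at
most the palindromic width of `Γ` with respect to `T`.
-/

set_option autoImplicit false

namespace Pool.Agent.Results.MP_b0f829_al.Equivalence

open Subgroup Pool.Agent.B0f829
open scoped commutatorElement

/-- `PalLen S k g`: the element `g` is a product of at most `k` palindromic words in the letters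
`S` and their inverses. -/
def PalLen {G : Type} [Group G] (S : Set G) (k : ℕ) (g : G) : Prop :=
  ∃ ps : List (List G), ps.length ≤ k ∧
    (∀ w ∈ ps, (∀ x ∈ w, x ∈ S ∨ x⁻¹ ∈ S) ∧ w.reverse = w) ∧ (ps.map List.prod).prod = g

/-- `CommLen k g`: the element `g` is a product of at most `k` commutators. -/
def CommLen {G : Type} [Group G] (k : ℕ) (g : G) : Prop :=
  ∃ l : List (G × G), l.length ≤ k ∧ (l.map (fun q => ⁅q.1, q.2⁆)).prod = g

/-- `ConjLen T k g`: the element `g` is a product of at most `k` conjugates of elements of `T`. -/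
def ConjLen {G : Type} [Group G] (T : Set G) (k : ℕ) (g : G) : Prop :=
  ∃ l : List G, l.length ≤ k ∧ (∀ x ∈ l, ∃ t ∈ T, IsConj t x) ∧ l.prod = g

/-- The subgroup `A²[A, G]` generated by the squares of elements of `A` and by `[A, G]`. -/
def SqComm {G : Type} [Group G] (A : Subgroup G) : Subgroup G :=
  closure {y | ∃ a ∈ A, y = a ^ 2} ⊔ ⁅A, (⊤ : Subgroup G)⁆

/-- The group `G` has finite palindromic width for every finite generating set. -/
def FinPW (G : Type) [Group G] : Prop :=
  ∀ S : Finset G, closure (S : Set G) = ⊤ → ∃ N : ℕ, ∀ g : G, PalLen (S : Set G) N g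

/-- The commutator width of `G` is finite. -/
def FinCW (G : Type) [Group G] : Prop :=
  ∃ N : ℕ, ∀ c ∈ commutator G, CommLen N c

/-- Q1: palindromic width is finite for all solvable groups of derived length at least `4` and all
finite generating sets. -/
def Q1 : Prop :=
  ∀ (G : Type) [Group G], Group.IsSolvable G → derivedSeries G 3 ≠ ⊥ → FinPW G

theorem result :
    -- (1)
    List.TFAE [
      Q1,
      ∀ (G : Type) [Group G], Group.IsSolvable G → Group.FG G → FinCW G,
      ∀ (G : Type) [Group G], Group.IsSolvable G → ∀ T : Finset G, closure (T : Set G) = ⊤ →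
        (∀ t ∈ T, t ^ 2 = 1) → ∃ N : ℕ, ∀ g : G, ConjLen (T : Set G) N g,
      ∀ n i : ℕ, 3 ≤ i → ∃ k : ℕ, ∀ a ∈ derivedSeries (FreeGroup (Fin n)) i, ∃ c, CommLen k c ∧
        c⁻¹ * a ∈ SqComm (derivedSeries (FreeGroup (Fin n)) i),
      ∀ n i : ℕ, 3 ≤ i →
        (∃ M : ℕ, ∀ w : FreeGroup (Fin n), ∃ p,
          PalLen (Set.range (FreeGroup.of : Fin n → FreeGroup (Fin n))) M p ∧
            p⁻¹ * w ∈ derivedSeries (FreeGroup (Fin n)) i) →
        (∀ k : ℕ, ∃ a ∈ derivedSeries (FreeGroup (Fin n)) i, ¬ ∃ c, CommLen k c ∧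
          c⁻¹ * a ∈ SqComm (derivedSeries (FreeGroup (Fin n)) i)) →
        ∃ M : ℕ, ∀ w ∈ derivedSeries (FreeGroup (Fin n)) i, ∃ p,
          PalLen (Set.range (FreeGroup.of : Fin n → FreeGroup (Fin n))) M p ∧
            p⁻¹ * w ∈ SqComm (derivedSeries (FreeGroup (Fin n)) i),
      ∀ (G : Type) [Group G], Group.IsSolvable G → ∀ S : Finset G, closure (S : Set G) = ⊤ →
        (∃ σ : G ≃* G, ∀ x ∈ S, σ x = x⁻¹) → ∃ N : ℕ, ∀ g : G, PalLen (S : Set G) N g] ∧
    -- (2)
    (∀ r : ℕ, ((∀ (G : Type) [Group G], derivedSeries G (r + 1) = ⊥ → FinPW G) →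
        ∀ (G : Type) [Group G], derivedSeries G r = ⊥ → Group.FG G → FinCW G) ∧
      ((∀ (G : Type) [Group G], derivedSeries G r = ⊥ → Group.FG G → FinCW G) →
        ∀ (G : Type) [Group G], derivedSeries G r = ⊥ → FinPW G)) ∧
    -- (3)
    (∀ (G : Type) [Group G], Group.FG G → ∃ (Γ : Type) (_ : Group Γ) (T : Finset Γ),
      closure (T : Set Γ) = ⊤ ∧ (∀ t ∈ T, t ^ 2 = 1) ∧
      (∀ r, derivedSeries G r = ⊥ → derivedSeries Γ (r + 1) = ⊥) ∧
      ∀ N : ℕ, (∀ g : Γ, PalLen (T : Set Γ) N g) → ∀ c ∈ commutator G, CommLen N c) := by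
  have h3 : ∀ (G : Type) [Group G], Group.FG G → ∃ (Γ : Type) (_ : Group Γ) (T : Finset Γ),
      closure (T : Set Γ) = ⊤ ∧ (∀ t ∈ T, t ^ 2 = 1) ∧
      (∀ r, derivedSeries G r = ⊥ → derivedSeries Γ (r + 1) = ⊥) ∧
      ∀ N : ℕ, (∀ g : Γ, PalLen (T : Set Γ) N g) → ∀ c ∈ commutator G, CommLen N c := by
    intro G _ hG
    obtain ⟨X, hX⟩ := Group.fg_def.1 hG
    obtain ⟨Γ, hΓ, T, h1, h2, h4, h5⟩ := EQ.transfer X hX
    exact ⟨Γ, hΓ, T, h1, h2, h4, fun N hN => h5 N fun g => EQ.palInv _ h2 N g (hN g)⟩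
  have hcf : ∀ (G : Type) [Group G], Group.IsSolvable G → FinCW G → FinPW G := by
    intro G _ hs ⟨k, hk⟩ S hS
    exact EQ.cw_pw G hs k hk S hS
  refine ⟨?_, ?_, h3⟩
  · tfae_have 1 → 3 := by
      intro hQ G _ hs T hT h2
      exact EQ.qtoC hQ G hs T hT h2
    tfae_have 3 → 2 := by
      intro hC G _ hs hG
      obtain ⟨X, hX⟩ := Group.fg_def.1 hG
      obtain ⟨Γ, hΓ, T, h1, h2, h4, h5⟩ := EQ.transfer X hX
      obtain ⟨r, hr⟩ := hs.solvable
      obtain ⟨N, hN⟩ := hC Γ ⟨⟨r + 1, h4 r hr⟩⟩ T h1 h2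
      exact ⟨N, h5 N hN⟩
    tfae_have 2 → 4 := by
      intro hC n i hi
      refine EQ.free_of_cw (fun G _ hs S hS => hC G hs ?_) n i hi
      exact Group.fg_def.2 ⟨S, hS⟩
    tfae_have 4 → 1 := by
      intro h G _ hs _ S hS
      exact EQ.pw_of_free h G hs S hS
    tfae_have 4 → 6 := by
      intro h G _ hs S hS _
      exact EQ.pw_of_free h G hs S hS
    tfae_have 1 ↔ 5 := by
      refine EQ.Central.central.trans ?_
      constructor
      · intro h n i hi h1 h2
        refine h n i hi h1 fun k => ?_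
        obtain ⟨a, ha, hna⟩ := h2 k
        refine ⟨a, ha, fun ⟨l, hl, hla⟩ => hna ⟨_, ⟨l, hl, rfl⟩, hla⟩⟩
      · intro h n i hi h1 h2
        refine h n i hi h1 fun k => ?_
        obtain ⟨a, ha, hna⟩ := h2 k
        refine ⟨a, ha, ?_⟩
        rintro ⟨c, ⟨l, hl, rfl⟩, hla⟩
        exact hna ⟨l, hl, hla⟩
    tfae_have 6 → 1 := by
      intro h G _ hs _ S hS
      refine EQ.sym_pw S hS fun Q _ m T hm hT hσ => h Q ?_ T ?_ hσ
      · have := hs
        exact Group.isSolvable_of_surjective hm
      · rw [hT, ← MonoidHom.map_closure, hS, ← MonoidHom.range_eq_map, MonoidHom.range_eq_top.2 hm]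
    tfae_finish
  · intro r
    refine ⟨fun h G _ hr hG => ?_, fun h G _ hr S hS => ?_⟩
    · obtain ⟨Γ, hΓ, T, h1, h2, h4, h5⟩ := h3 G hG
      obtain ⟨N, hN⟩ := h Γ (h4 r hr) T h1
      exact ⟨N, h5 N hN⟩
    · exact hcf G ⟨⟨r, hr⟩⟩ (h G hr (Group.fg_def.2 ⟨S, hS⟩)) S hS

end Pool.Agent.Results.MP_b0f829_al.Equivalence
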