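import Pool.Agent.Work.MP_b0f829_al.H86.Ext

set_option autoImplicit false

namespace Pool.Agent.Results.MP_b0f829_al.ExtensionClosure

open Subgroup Pool.Agent.B0f829
open scoped commutatorElement

/-- `PalLen S k g`: the element `g` is a product of at most `k` palindromic words in the letters
`S` and their inverses. -/
def PalLen {G : Type} [Group G] (S : Set G) (k : ℕ) (g : G) : Prop :=
  ∃ ps : List (List G), ps.length ≤ k ∧
    (∀ w ∈ ps, (∀ x ∈ w, x ∈ S ∨ x⁻¹ ∈ S) ∧ w.reverse = w) ∧ (ps.map List.prod).prod = g

/-- Let `G` be a solvable group and `N 0, N 1, ..., N m = 1` subgroups of `G` such that, for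
`i < m`, `N i` is the normal closure in `G` of a finite set and `N (i + 1)` contains the derived
subgroup of some term of the lower central series of `N i` (for example `N (i + 1)` is normal and
`N i / N (i + 1)` is abelian, nilpotent, metabelian or abelian-by-nilpotent). Then for every finite
generating set `S` of `G` there is `k` such that for every homomorphism `π` with kernel `N 0` and
every `g` in `G` the palindromic length of `g` with respect to `S` is at most `k` plus the
palindromic length of `π g` with respect to `π S`. In particular the palindromic width of `G` is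
finite if and only if that of `G / N 0` is finite. -/
theorem result (G : Type) [Group G] (hsol : Group.IsSolvable G) (m : ℕ) (N : ℕ → Subgroup G)
    (hfg : ∀ i < m, ∃ T : Finset G, N i = normalClosure (T : Set G))
    (hab : ∀ i < m, ∃ c : ℕ,
      ⁅(N i).lowerCentralSeries c, (N i).lowerCentralSeries c⁆ ≤ N (i + 1))
    (hm : N m = ⊥) (S : Finset G) (hS : closure (S : Set G) = ⊤) :
    ∃ k : ℕ, ∀ (H : Type) [Group H] (π : G →* H), π.ker = N 0 →
      ∀ (n : ℕ) (g : G), PalLen (π '' (S : Set G)) n (π g) → PalLen (S : Set G) (n + k) g := by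
  obtain ⟨M, hM⟩ := ext_chain hsol S hS m N hfg hab
  refine ⟨M, fun H _ π hker n g hg => ?_⟩
  obtain ⟨p, hp, hpg⟩ := PL.lift π hg
  have h1 : p⁻¹ * g ∈ N 0 := by
    rw [← hker, MonoidHom.mem_ker, map_mul, map_inv, hpg, inv_mul_cancel]
  obtain ⟨q, hq, hqg⟩ := hM _ h1
  rw [hm, mem_bot, inv_mul_eq_one] at hqg
  rw [hqg] at hq
  have h2 := hp.mul hq
  rwa [mul_inv_cancel_left] at h2

end Pool.Agent.Results.MP_b0f829_al.ExtensionClosure
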