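import Pool.Agent.Work.MP_b0f829_al.EQ.GMain
import Pool.Agent.Work.MP_b0f829_al.EQ.GInf

/-!
# MP_b0f829_al: palindromic width and the choice of the generating set

(1) Let `G` be any group, `Y` a finite generating set and `X` a set containing `Y` and, for all
`y ≠ z` in `Y`, one of the products `y z`, `z y`. Then every element of the derived subgroup is the
value of a single palindromic word over `X`, and `pw(G, X) ≤ |Y| + 1`.
(2) The palindromic width of a nonabelian free group with respect to a basis is infinite.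
(3) `pw(F₂, {a, b, ab}) ≤ 3`. So finiteness of the palindromic width depends on the finite generating
set.
(4) Q1 holds if and only if for solvable groups of derived length at least `4` the finiteness of the
palindromic width does not depend on the finite generating set.
-/

set_option autoImplicit false

namespace Pool.Agent.Results.MP_b0f829_al.GeneratingSets

open Subgroup Pool.Agent.B0f829
open scoped commutatorElement

/-- `PalLen S k g`: the element `g` is a product of at most `k` palindromic words in the letters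
`S` and their inverses. -/
def PalLen {G : Type} [Group G] (S : Set G) (k : ℕ) (g : G) : Prop :=
  ∃ ps : List (List G), ps.length ≤ k ∧
    (∀ w ∈ ps, (∀ x ∈ w, x ∈ S ∨ x⁻¹ ∈ S) ∧ w.reverse = w) ∧ (ps.map List.prod).prod = g

theorem result :
    -- (1)
    (∀ (G : Type) [Group G] (X : Set G) (Y : Finset G), closure (Y : Set G) = ⊤ → (Y : Set G) ⊆ X →
      (∀ y ∈ Y, ∀ z ∈ Y, y ≠ z → y * z ∈ X ∨ z * y ∈ X) →
      (∀ g ∈ commutator G,
        ∃ w : List G, (∀ x ∈ w, x ∈ X ∨ x⁻¹ ∈ X) ∧ w.reverse = w ∧ w.prod = g) ∧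
      ∀ g : G, PalLen X (Y.card + 1) g) ∧
    -- (2)
    (∀ (α : Type) (a b : α), a ≠ b → ∀ N : ℕ, ∃ g : FreeGroup α,
      ¬ PalLen (Set.range (FreeGroup.of : α → FreeGroup α)) N g) ∧
    -- (3)
    (∀ g : FreeGroup (Fin 2),
      PalLen {FreeGroup.of 0, FreeGroup.of 1, FreeGroup.of 0 * FreeGroup.of 1} 3 g) ∧
    -- (4)
    ((∀ (G : Type) [Group G], Group.IsSolvable G → derivedSeries G 3 ≠ ⊥ →
        ∀ S : Finset G, closure (S : Set G) = ⊤ → ∃ N : ℕ, ∀ g : G, PalLen (S : Set G) N g) ↔
      ∀ (G : Type) [Group G], Group.IsSolvable G → derivedSeries G 3 ≠ ⊥ →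
        ∀ S T : Finset G, closure (S : Set G) = ⊤ → closure (T : Set G) = ⊤ →
          (∃ N : ℕ, ∀ g : G, PalLen (T : Set G) N g) → ∃ N : ℕ, ∀ g : G, PalLen (S : Set G) N g) := by
  classical
  have h1 : ∀ (G : Type) [Group G] (X : Set G) (Y : Finset G), closure (Y : Set G) = ⊤ →
      (Y : Set G) ⊆ X → (∀ y ∈ Y, ∀ z ∈ Y, y ≠ z → y * z ∈ X ∨ z * y ∈ X) →
      ∀ g : G, PalLen X (Y.card + 1) g := fun G _ X Y hY hYX hp g => EQ.gMain X Y hY hYX hp g
  refine ⟨fun G _ X Y hY hYX hp => ⟨fun g hg => EQ.gPal X (Y : Set G) hY hYX hp g hg,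
    h1 G X Y hY hYX hp⟩, fun α a b hab N => EQ.gInf a b hab N, fun g => ?_, ?_⟩
  · have hY : closure ((({FreeGroup.of 0, FreeGroup.of 1} : Finset (FreeGroup (Fin 2)))) :
        Set (FreeGroup (Fin 2))) = ⊤ := by
      rw [eq_top_iff, ← FreeGroup.closure_range_of]
      apply Subgroup.closure_mono
      rintro _ ⟨i, rfl⟩
      fin_cases i <;> simp
    have h2 := h1 (FreeGroup (Fin 2)) {FreeGroup.of 0, FreeGroup.of 1, FreeGroup.of 0 * FreeGroup.of 1}
      {FreeGroup.of 0, FreeGroup.of 1} hY (by
        intro x hx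
        simp only [Finset.coe_insert, Finset.coe_singleton, Set.mem_insert_iff,
          Set.mem_singleton_iff] at hx ⊢
        tauto) (by
        intro y hy z hz hyz
        simp only [Finset.mem_insert, Finset.mem_singleton] at hy hz
        rcases hy with rfl | rfl <;> rcases hz with rfl | rfl
        · exact absurd rfl hyz
        · left; simp
        · right; simp
        · exact absurd rfl hyz) g
    obtain ⟨ps, h3, h4, h5⟩ := h2
    refine ⟨ps, h3.trans ?_, h4, h5⟩
    exact Nat.succ_le_succ (Finset.card_insert_le _ _)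
  · constructor
    · intro h G _ hs hd S _ hS _ _
      exact h G hs hd S hS
    · intro h G _ hs hd S hS
      let T : Finset G := S ∪ (S ×ˢ S).image (fun q => q.1 * q.2)
      have hST : (S : Set G) ⊆ (T : Set G) := by
        rw [Finset.coe_subset]
        exact Finset.subset_union_left
      have hT : closure (T : Set G) = ⊤ := by
        rw [eq_top_iff, ← hS]
        exact Subgroup.closure_mono hST
      refine h G hs hd S T hS hT ⟨_, h1 G (T : Set G) S hS hST ?_⟩
      intro y hy z hz _
      left
      rw [Finset.mem_coe]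
      refine Finset.mem_union_right _ (Finset.mem_image.2 ⟨(y, z), ?_, rfl⟩)
      exact Finset.mem_product.2 ⟨hy, hz⟩

end Pool.Agent.Results.MP_b0f829_al.GeneratingSets
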